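import Pool.Agent.Helper75.Torus.Goals

set_option autoImplicit false

/-!
Packet TORUS-EXACT of MP_beb0a8_an.
-/

open Set MeasureTheory Matrix

namespace Pool.Agent.Helper45.Torus

open Pool.Agent.Helper75.Torus
open Pool.Agent.Helper75.Flow (LipField IsFlow IsJac EulerOn curlL)

theorem ee2_dot : ee 2 ⬝ᵥ ee 2 = 1 := by
  simp [ee]

theorem nn_ee2 : nn (ee 2) = 1 := by
  simp [nn, ee2_dot]

theorem cofv_id : cofv (ContinuousLinearMap.id ℝ E) (ee 2) = ee 2 := by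
  unfold cofv
  ext i
  fin_cases i <;> simp [ee, crossProduct]

theorem dir45 {m : ℕ} (h : m % 8 = 4 ∨ m % 8 = 5) : dir m = ee 2 := by
  rcases h with h | h
  · unfold dir
    rw [h]
    ext i
    fin_cases i <;> simp [ee]
  · unfold dir
    rw [h]
    ext i
    fin_cases i <;> simp [ee]

theorem kap45 {m : ℕ} (h : m % 8 = 4 ∨ m % 8 = 5) : kap m = ee 2 := by
  unfold kap
  rw [dir45 h, nn_ee2]
  simp

theorem pol4 (b : E) : pol 4 ⬝ᵥ b = b 0 := by
  simp [pol, dotProduct, Fin.sum_univ_three]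

theorem pol5 (b : E) : pol 5 ⬝ᵥ b = b 1 := by
  simp [pol, dotProduct, Fin.sum_univ_three]

theorem ee2_dotb (b : E) : ee 2 ⬝ᵥ b = b 2 := by
  simp [ee]

theorem lamn45 {N m : ℕ} (h : m % 8 = 4 ∨ m % 8 = 5) : lamn N m = (N : ℝ) ^ (m ^ 2) := by
  unfold lamn
  rw [dir45 h, nn_ee2, mul_one]

theorem lamn_ge {N m : ℕ} (hN : 4 ≤ N) (h : m % 8 = 4 ∨ m % 8 = 5) : (m : ℝ) ≤ lamn N m := by
  rw [lamn45 h]
  have h1 : m ^ 2 < N ^ (m ^ 2) := Nat.lt_pow_self (by omega)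
  have h2 : m ≤ m ^ 2 := Nat.le_self_pow (by norm_num) m
  have h3 : m ≤ N ^ (m ^ 2) := h2.trans h1.le
  calc (m : ℝ) ≤ ((N ^ (m ^ 2) : ℕ) : ℝ) := by exact_mod_cast h3
    _ = (N : ℝ) ^ (m ^ 2) := by push_cast; rfl

/-! ### Linearity of the pairing -/

theorem dot_int {v ψ : E → E} (hv : Continuous v) (hψ : Continuous ψ) (hc : HasCompactSupport ψ)
    (x : E) (lam : ℝ) (J : E →L[ℝ] E) :
    Integrable (fun Y => v (x + lam⁻¹ • J Y) ⬝ᵥ J (ψ Y)) := by
  have h1 : Continuous (fun Y => v (x + lam⁻¹ • J Y)) := by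
    refine hv.comp ?_
    fun_prop
  have h2 : Continuous (fun Y => J (ψ Y)) := J.continuous.comp hψ
  refine Continuous.integrable_of_hasCompactSupport ?_ ?_
  · simp only [dotProduct]
    refine continuous_finsetSum _ fun i _ => ?_
    exact ((continuous_apply i).comp h1).mul ((continuous_apply i).comp h2)
  · refine hc.mono ?_
    intro Y hY
    rw [Function.mem_support] at hY ⊢
    intro h0
    apply hY
    rw [h0, map_zero, dotProduct_zero]

theorem pair_sum (hT1A : G_T1A) {α : ℝ} {η : E → ℝ} {v : E → E} (hη : Bump η) {κ : E}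
    (hκ : κ ⬝ᵥ κ = 1) (hv : Continuous v) (x : E) (lam : ℝ) (J : E →L[ℝ] E) {δ : ℝ}
    (hδ : δ ∈ Ioc (0 : ℝ) 1) (τ : ℝ) (b : E) :
    pair α η v x lam J κ δ τ b = ∑ l, b l * pair α η v x lam J κ δ τ (ee l) := by
  obtain ⟨-, h⟩ := hT1A η κ hη hκ
  obtain ⟨h1, -, -, h2, -, -⟩ := h δ hδ τ
  have hF : ∀ l, Integrable (fun Y => v (x + lam⁻¹ • J Y) ⬝ᵥ J (Tf η κ δ τ (ee l) Y)) := fun l =>
    dot_int hv (h1 (ee l)).1.continuous (h1 (ee l)).2.1 x lam J
  have h3 : ∀ Y, v (x + lam⁻¹ • J Y) ⬝ᵥ J (Tf η κ δ τ b Y) =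
      ∑ l, b l * (v (x + lam⁻¹ • J Y) ⬝ᵥ J (Tf η κ δ τ (ee l) Y)) := by
    intro Y
    rw [h2 b Y, map_sum, dotProduct_sum]
    refine Finset.sum_congr rfl fun l _ => ?_
    rw [map_smul, dotProduct_smul, smul_eq_mul]
  unfold pair
  simp only [h3]
  rw [integral_finsetSum _ (fun l _ => (hF l).const_mul (b l))]
  simp only [integral_const_mul]
  rw [Finset.mul_sum]
  refine Finset.sum_congr rfl fun l _ => ?_
  ring

theorem pair_sub (hT1A : G_T1A) {α : ℝ} {η : E → ℝ} {v : E → E} (hη : Bump η) {κ : E}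
    (hκ : κ ⬝ᵥ κ = 1) (hv : Continuous v) (x : E) (lam : ℝ) (J : E →L[ℝ] E) {δ : ℝ}
    (hδ : δ ∈ Ioc (0 : ℝ) 1) (τ : ℝ) (b b' : E) :
    pair α η v x lam J κ δ τ (b' - b) =
      pair α η v x lam J κ δ τ b' - pair α η v x lam J κ δ τ b := by
  rw [pair_sum hT1A hη hκ hv x lam J hδ τ (b' - b), pair_sum hT1A hη hκ hv x lam J hδ τ b',
    pair_sum hT1A hη hκ hv x lam J hδ τ b, ← Finset.sum_sub_distrib]
  refine Finset.sum_congr rfl fun l _ => ?_
  rw [Pi.sub_apply]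
  ring

theorem pair_add (hT1A : G_T1A) {α : ℝ} {η : E → ℝ} {v w : E → E} (hη : Bump η) {κ : E}
    (hκ : κ ⬝ᵥ κ = 1) (hv : Continuous v) (hw : Continuous w) (x : E) (lam : ℝ) (J : E →L[ℝ] E)
    {δ : ℝ} (hδ : δ ∈ Ioc (0 : ℝ) 1) (τ : ℝ) (b : E) :
    pair α η (fun y => v y + w y) x lam J κ δ τ b =
      pair α η v x lam J κ δ τ b + pair α η w x lam J κ δ τ b := by
  obtain ⟨-, h⟩ := hT1A η κ hη hκ
  obtain ⟨h1, -, -, -, -, -⟩ := h δ hδ τ
  unfold pair
  simp only [add_dotProduct]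
  rw [integral_add (dot_int hv (h1 b).1.continuous (h1 b).2.1 x lam J)
    (dot_int hw (h1 b).1.continuous (h1 b).2.1 x lam J)]
  ring

theorem term_cont (α : ℝ) (N n : ℕ) : Continuous (term α N n) := by
  have h : Continuous (fun x : E => xi N n ⬝ᵥ x) := by
    simp only [dotProduct]
    refine continuous_finsetSum _ fun i _ => ?_
    exact continuous_const.mul (continuous_apply i)
  exact (continuous_const.mul (Real.continuous_cos.comp h)).smul continuous_const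

/-- a large wave number of a given class -/
theorem exists_m {N r : ℕ} (hN : 4 ≤ N) (hr : r = 4 ∨ r = 5) {α : ℝ} (hα : 0 < α) (D ρ : ℝ)
    (hρ : 0 < ρ) (m₀ : ℕ) :
    ∃ m ≥ m₀, m % 8 = r % 8 ∧ 1 ≤ lamn N m ∧ D * lamn N m ^ (-α) ≤ ρ := by
  have h1 : Filter.Tendsto (fun k : ℕ => |D| * (k : ℝ) ^ (-α)) Filter.atTop (nhds (|D| * 0)) :=
    ((tendsto_rpow_neg_atTop hα).comp tendsto_natCast_atTop_atTop).const_mul _
  rw [mul_zero] at h1
  have h2 := (h1.eventually (gt_mem_nhds hρ)).and (Filter.eventually_ge_atTop (m₀ + 1))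
  obtain ⟨k, hk1, hk2⟩ := h2.exists
  have hmod : (8 * k + r) % 8 = r % 8 := by omega
  have hm45 : (8 * k + r) % 8 = 4 ∨ (8 * k + r) % 8 = 5 := by
    rcases hr with rfl | rfl
    · left; omega
    · right; omega
  have h3 : ((8 * k + r : ℕ) : ℝ) ≤ lamn N (8 * k + r) := lamn_ge hN hm45
  have hk0 : (0 : ℝ) < k := by
    have : 0 < k := by omega
    exact_mod_cast this
  have h4 : (k : ℝ) ≤ lamn N (8 * k + r) := by
    refine le_trans ?_ h3
    push_cast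
    have : (0 : ℝ) ≤ r := Nat.cast_nonneg r
    linarith
  have h5 : (1 : ℝ) ≤ k := by
    have : 1 ≤ k := by omega
    exact_mod_cast this
  refine ⟨8 * k + r, by omega, hmod, h5.trans h4, ?_⟩
  have h6 : lamn N (8 * k + r) ^ (-α) ≤ (k : ℝ) ^ (-α) :=
    Real.rpow_le_rpow_of_nonpos hk0 h4 (by linarith)
  have h7 : 0 ≤ lamn N (8 * k + r) ^ (-α) := Real.rpow_nonneg (hk0.le.trans h4) _
  calc D * lamn N (8 * k + r) ^ (-α) ≤ |D| * lamn N (8 * k + r) ^ (-α) :=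
        mul_le_mul_of_nonneg_right (le_abs_self D) h7
    _ ≤ |D| * (k : ℝ) ^ (-α) := mul_le_mul_of_nonneg_left h6 (abs_nonneg D)
    _ ≤ ρ := le_of_lt hk1

theorem nn_sq (d : E) : nn d ^ 2 = d 0 ^ 2 + d 1 ^ 2 + d 2 ^ 2 := by
  unfold nn
  rw [Real.sq_sqrt]
  · simp only [dotProduct, Fin.sum_univ_three]
    ring
  · simp only [dotProduct, Fin.sum_univ_three]
    nlinarith [sq_nonneg (d 0), sq_nonneg (d 1), sq_nonneg (d 2)]

theorem det_idE : (ContinuousLinearMap.id ℝ E).det = 1 := by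
  simp [ContinuousLinearMap.det]

theorem exact_thm (hEVO : G_EVO) (hPB : G_PB) (hSGN : G_SGN) (hSGI : G_SGI) (hCURLP : G_CURLP)
    (hB2 : G_BETA2) (hTR : G_TRANS) (hT1A : G_T1A) : G_EXACT := by
  intro α N η hα hα1 hN hN4 hη
  obtain ⟨C₀, hC₀, hPB'⟩ := hPB α η hα hα1 hη
  have hI : 0 < ∫ Y, η Y := hη.2.2
  set I := ∫ Y, η Y with hIdef
  have hε0 : 0 < min 1 (I / (8 * C₀)) := lt_min one_pos (by positivity)
  refine ⟨min 1 (I / (8 * C₀)), hε0, ?_⟩
  set ε₀ := min 1 (I / (8 * C₀)) with hε₀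
  intro t K u g p φ J ht hL hper hJ X β hβ
  have htt : t ∈ Icc 0 t := ⟨ht, le_refl t⟩
  have h0t : (0 : ℝ) ∈ Icc 0 t := ⟨le_refl 0, ht⟩
  -- the flow map is a translation
  obtain ⟨a, ha⟩ := hTR (φ t) (fun X => by
    have h := ((hL.jac X (mem_univ X)).2 t htt).1
    rw [hJ X] at h
    exact h)
  have hcurl : ∀ Y, curlL (fderiv ℝ (u t) (Y + a)) = curlL (fderiv ℝ (u 0) Y) := fun Y => by
    have h := hL.vort Y t htt
    rw [ha Y, hJ Y] at h
    simpa using h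
  have hut : ContDiff ℝ 1 (u t) := contDiff_pi.2 fun i => (hL.hol t htt i).1
  have hu0 : ContDiff ℝ 1 (u 0) := contDiff_pi.2 fun i => (hL.hol 0 h0t i).1
  have hrc : Continuous (fun z => u 0 z - v0 α N z) := by
    have : ContDiff ℝ 1 (fun z => u 0 z - v0 α N z) := contDiff_pi.2 fun i => (hper i).1
    exact this.continuous
  have hv0 : Continuous (v0 α N) := by
    have h : (v0 α N) = fun z => u 0 z - (u 0 z - v0 α N z) := by
      funext z
      abel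
    rw [h]
    exact hu0.continuous.sub hrc
  -- amplitudes
  have hJc : ContinuousOn (fun s => J s X) (Icc 0 t) := by
    have h := hL.jcont
    exact h.comp (f := fun s : ℝ => (s, X)) (by fun_prop) (fun s hs => ⟨hs, mem_univ _⟩)
  have hb2 := hB2 t (fun s => J s X) (ee 2) _ β β ht hJc (hL.jdet X) ee2_dot hβ hβ
  have hbt : ee 2 ⬝ᵥ β t = 0 := (hb2 t htt).1
  have hb0 : ee 2 ⬝ᵥ β 0 = 0 := (hb2 0 h0t).1
  set d := β t - β 0 with hd
  have hd0 : ee 2 ⬝ᵥ d = 0 := by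
    rw [hd, dotProduct_sub, hbt, hb0, sub_zero]
  obtain ⟨C, hC⟩ := hEVO α t K u g p φ J η hα hα1 ht hL hη X (ee 2) β ee2_dot hβ
  have key : ∀ r : ℕ, (r = 4 ∨ r = 5) → (1 / 2) * |pol r ⬝ᵥ d| * I ≤ C₀ * ε₀ * nn d := by
    intro r hr
    have hkap : kap r = ee 2 := kap45 (by rcases hr with rfl | rfl <;> simp)
    refine le_of_forall_pos_le_add fun ρ' hρ' => ?_
    have hρ : 0 < ρ' / 5 := by positivity
    obtain ⟨δ₁, hδ₁, h1⟩ := hPB' (ee 2) d (ContinuousLinearMap.id ℝ E) ee2_dot hd0 det_idE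
      (ρ' / 5) hρ
    obtain ⟨δ₂, hδ₂, h2⟩ := hSGI α N η hα hα1 hN4 hη d r (ρ' / 5) (by rw [hkap]; exact hd0) hρ
    have hC1 : 0 < |C| + 1 := by positivity
    obtain ⟨δ, hδ0, hδ1, hδa, hδb, hδc⟩ : ∃ δ : ℝ, 0 < δ ∧ δ ≤ 1 ∧ δ ≤ δ₁ ∧ δ ≤ δ₂ ∧
        C * δ ≤ ρ' / 5 := by
      refine ⟨min (min 1 δ₁) (min δ₂ (ρ' / 5 / (|C| + 1))), ?_, ?_, ?_, ?_, ?_⟩
      · exact lt_min (lt_min one_pos hδ₁) (lt_min hδ₂ (by positivity))
      · exact (min_le_left _ _).trans (min_le_left _ _)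
      · exact (min_le_left _ _).trans (min_le_right _ _)
      · exact (min_le_right _ _).trans (min_le_left _ _)
      · have h0 : 0 < min (min 1 δ₁) (min δ₂ (ρ' / 5 / (|C| + 1))) :=
          lt_min (lt_min one_pos hδ₁) (lt_min hδ₂ (by positivity))
        have h3 : min (min 1 δ₁) (min δ₂ (ρ' / 5 / (|C| + 1))) ≤ ρ' / 5 / (|C| + 1) :=
          (min_le_right _ _).trans (min_le_right _ _)
        calc C * min (min 1 δ₁) (min δ₂ (ρ' / 5 / (|C| + 1)))
            ≤ (|C| + 1) * min (min 1 δ₁) (min δ₂ (ρ' / 5 / (|C| + 1))) :=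
              mul_le_mul_of_nonneg_right ((le_abs_self C).trans (by linarith)) h0.le
          _ ≤ (|C| + 1) * (ρ' / 5 / (|C| + 1)) := mul_le_mul_of_nonneg_left h3 hC1.le
          _ = ρ' / 5 := by field_simp
    have hδI : δ ∈ Ioc (0 : ℝ) 1 := ⟨hδ0, hδ1⟩
    obtain ⟨D, hD⟩ := hC δ hδI
    obtain ⟨m₀, hm₀⟩ := hSGN α N η hα hα1 hN hN4 hη (ee 2) d (ContinuousLinearMap.id ℝ E) δ
      (ρ' / 5) ee2_dot hδI hρ
    obtain ⟨m, hm, hmr, hlam1, hlamD⟩ := exists_m hN4 hr hα D (ρ' / 5) hρ m₀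
    have hlam0 : 0 < lamn N m := lt_of_lt_of_le one_pos hlam1
    have e1 := h1 δ hδI hδa ε₀ (fun z => u 0 z - v0 α N z) X (lamn N m) (xi N m ⬝ᵥ X)
      hε0.le (min_le_left _ _) hlam0 hper
    have e2 := hm₀ m hm X (xi N m ⬝ᵥ X)
    have e3 := h2 δ hδI hδb m X hmr
    have e4 := hD (lamn N m) hlam1 (xi N m ⬝ᵥ X)
    rw [hkap] at e3
    -- replace the pairing at time t
    have e5 : pair α η (u t) (φ t X) (lamn N m) (J t X) (ee 2) δ (xi N m ⬝ᵥ X) (β t) =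
        pair α η (u 0) X (lamn N m) (ContinuousLinearMap.id ℝ E) (ee 2) δ (xi N m ⬝ᵥ X)
          (β t) := by
      rw [hJ X]
      refine hCURLP α η (u t) (u 0) (φ t X) X (ee 2) (β t) (lamn N m) δ (xi N m ⬝ᵥ X) hη ee2_dot
        hlam0 hδI hut hu0 ?_
      intro y
      have h := hcurl (X + y)
      rw [ha X, ← h]
      congr 2
      abel
    rw [e5, ← pair_sub hT1A hη ee2_dot hu0.continuous X (lamn N m) (ContinuousLinearMap.id ℝ E) hδI
      (xi N m ⬝ᵥ X) (β 0) (β t), ← hd] at e4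
    -- decomposition of the initial velocity
    have e6 : pair α η (u 0) X (lamn N m) (ContinuousLinearMap.id ℝ E) (ee 2) δ
        (xi N m ⬝ᵥ X) d =
        pair α η (fun z => u 0 z - v0 α N z) X (lamn N m) (ContinuousLinearMap.id ℝ E) (ee 2) δ
          (xi N m ⬝ᵥ X) d +
        (pair α η (fun y => v0 α N y - term α N m y) X (lamn N m)
          (ContinuousLinearMap.id ℝ E) (ee 2) δ (xi N m ⬝ᵥ X) d +
        pair α η (term α N m) X (lamn N m) (ContinuousLinearMap.id ℝ E) (ee 2) δ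
          (xi N m ⬝ᵥ X) d) := by
      rw [← pair_add (α := α) (v := fun y => v0 α N y - term α N m y) (w := term α N m) hT1A hη
        ee2_dot (hv0.sub (term_cont α N m)) (term_cont α N m) X (lamn N m)
        (ContinuousLinearMap.id ℝ E) hδI (xi N m ⬝ᵥ X) d]
      rw [← pair_add (α := α) (v := fun z => u 0 z - v0 α N z) hT1A hη ee2_dot hrc
        (w := fun y => (v0 α N y - term α N m y) + term α N m y)
        ((hv0.sub (term_cont α N m)).add (term_cont α N m)) X (lamn N m)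
        (ContinuousLinearMap.id ℝ E) hδI (xi N m ⬝ᵥ X) d]
      congr 1
      funext y
      abel
    rw [cofv_id, nn_ee2, Real.one_rpow, mul_one] at e1
    simp only [ContinuousLinearMap.id_apply] at e1
    set P0 := pair α η (u 0) X (lamn N m) (ContinuousLinearMap.id ℝ E) (ee 2) δ
        (xi N m ⬝ᵥ X) d
    set P1 := pair α η (fun z => u 0 z - v0 α N z) X (lamn N m) (ContinuousLinearMap.id ℝ E)
      (ee 2) δ (xi N m ⬝ᵥ X) d
    set P2 := pair α η (fun y => v0 α N y - term α N m y) X (lamn N m)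
          (ContinuousLinearMap.id ℝ E) (ee 2) δ (xi N m ⬝ᵥ X) d
    set P3 := pair α η (term α N m) X (lamn N m) (ContinuousLinearMap.id ℝ E) (ee 2) δ
          (xi N m ⬝ᵥ X) d
    have e7 : (1 / 2) * |pol r ⬝ᵥ d| * I = |(1 / 2) * (pol r ⬝ᵥ d) * I| := by
      rw [abs_mul, abs_mul, abs_of_pos hI, abs_of_pos (by norm_num : (0 : ℝ) < 1 / 2)]
    rw [e7]
    rw [abs_le] at e1 e2 e3 e4
    rw [abs_le]
    constructor <;> linarith [e1.1, e1.2, e2.1, e2.2, e3.1, e3.2, e4.1, e4.2]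
  have k4 := key 4 (Or.inl rfl)
  have k5 := key 5 (Or.inr rfl)
  rw [pol4] at k4
  rw [pol5] at k5
  have hnd : 0 ≤ nn d := Real.sqrt_nonneg _
  have hCe : C₀ * ε₀ ≤ I / 8 := by
    calc C₀ * ε₀ ≤ C₀ * (I / (8 * C₀)) := mul_le_mul_of_nonneg_left (min_le_right _ _) hC₀.le
      _ = I / 8 := by field_simp
  have hCe' : C₀ * ε₀ * nn d ≤ I / 8 * nn d := mul_le_mul_of_nonneg_right hCe hnd
  have a4 : |d 0| ≤ nn d / 4 := by
    have h : I * |d 0| ≤ I * (nn d / 4) := by linarith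
    exact le_of_mul_le_mul_left h hI
  have a5 : |d 1| ≤ nn d / 4 := by
    have h : I * |d 1| ≤ I * (nn d / 4) := by linarith
    exact le_of_mul_le_mul_left h hI
  have hd2 : d 2 = 0 := by
    rw [← ee2_dotb d]
    exact hd0
  have hsq := nn_sq d
  rw [hd2] at hsq
  have b4 : d 0 ^ 2 ≤ (nn d / 4) ^ 2 := by
    rw [← sq_abs (d 0)]
    exact pow_le_pow_left₀ (abs_nonneg _) a4 2
  have b5 : d 1 ^ 2 ≤ (nn d / 4) ^ 2 := by
    rw [← sq_abs (d 1)]
    exact pow_le_pow_left₀ (abs_nonneg _) a5 2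
  have hn0 : nn d = 0 := by
    have : nn d ^ 2 ≤ 0 := by nlinarith
    have h2 : nn d ^ 2 = 0 := le_antisymm this (sq_nonneg _)
    exact pow_eq_zero_iff (two_ne_zero) |>.1 h2
  rw [hn0] at a4 a5
  have c4 : d 0 = 0 := by
    have : |d 0| ≤ 0 := by linarith
    exact abs_eq_zero.1 (le_antisymm this (abs_nonneg _))
  have c5 : d 1 = 0 := by
    have : |d 1| ≤ 0 := by linarith
    exact abs_eq_zero.1 (le_antisymm this (abs_nonneg _))
  have hdz : d = 0 := by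
    ext i
    fin_cases i
    · exact c4
    · exact c5
    · exact hd2
  exact sub_eq_zero.1 (hd ▸ hdz)

end Pool.Agent.Helper45.Torus
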